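import Pool.Agent.H38.SE.Fin
import Pool.Agent.H38.AQ.Sel

/-!
# SQ (EN): the end of the count for `S_4` in degree 6 over every number field. Definitions (complete)

`QD K`: abstract data: `Le` the relation `the same local type` (at the primes of `S` and at the real places), `X` the characters, `xc` their
fields, `sq` their sums. The interfaces `LFin`, `LS1`, `LS2`, `LS5`, `FFS` of `H67/SX/Defs.lean`, `H38/SE/Defs.lean` for these data; `TRI` the trivial bound.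
-/

set_option autoImplicit false

open scoped NumberField Classical
open IsDedekindDomain H38.ML H63.MA Filter Topology H67.SX H38.SE

noncomputable section

namespace H38.SQE

/-- local types and characters: abstract data -/
structure QD (K : IntermediateField ℚ QBar) [NumberField K] where
  Le : Cu K → Cu K → Prop
  eqv : Equivalence Le
  X : Type
  xc : X → Cu K
  sq : X → ℝ → ℝ

variable {K : IntermediateField ℚ QBar} [NumberField K] {G : Type} [Group G]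

/-- finitely many local types -/
def QD.LFin (q : QD K) : Prop := ∃ T : Finset (Cu K), ∀ c : Cu K, ∃ c₀ ∈ T, q.Le c₀ c

/-- power saving for one character -/
def QD.LS1 (q : QD K) : Prop :=
  ∃ (C : ℝ) (A : ℕ) (δ : ℝ), 1 ≤ C ∧ 0 < δ ∧ δ ≤ 1 ∧ ∀ x : q.X, ∀ Y : ℝ, 1 ≤ Y →
    |q.sq x Y| ≤ C * (q.xc x).D ^ A * Y ^ (1 - δ)

/-- few exceptions -/
def QD.LS2 (q : QD K) : Prop :=
  ∀ (A₁ B : ℕ) (ε : ℝ), 0 < ε → ∃ R₀ : ℝ, 3 ≤ R₀ ∧ ∀ R : ℝ, R₀ ≤ R → ∀ J : Set q.X,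
    (∀ x ∈ J, (q.xc x).D ≤ R ^ A₁ ∧ ∃ Y : ℝ, Real.exp (Real.log (Real.log R) ^ 3) ≤ Y ∧
      Y / Real.log R ^ B < |q.sq x Y|) →
    J.Finite ∧ (J.ncard : ℝ) ≤ R ^ ε

/-- the trivial bound -/
def QD.TRI (q : QD K) : Prop :=
  ∃ C : ℝ, 1 ≤ C ∧ ∀ (x : q.X) (Y : ℝ), 1 ≤ Y → |q.sq x Y| ≤ C * Y * (1 + Real.log Y) ^ 2

/-- the mean of `Am` over the fields of one local type -/
def QD.LS5 (q : QD K) (Am : Cu K → ℝ) : Prop :=
  ∀ c₀ : Cu K, ∃ a : ℝ, 0 < a ∧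
    Tendsto (fun R : ℝ => (∑ᶠ c ∈ {c : Cu K | q.Le c₀ c ∧ c.D ≤ R}, Am c) / R) atTop (𝓝 a)

/-- the fibre formula -/
def QD.FFS (q : QD K) (S : Finset (Pl K)) (Q : DP K QBar) (pi : G →* Equiv.Perm (Fin 3)) : Prop :=
  ∀ ds : (Gal(QBar/K) →* G) → ℕ, H48.T3.LocInv Q S ds →
    (∃ Df : Finset ℕ, ∀ φ : Gal(QBar/K) →* G, FT φ → Function.Surjective φ → ds φ ∈ Df) ∧
    ∃ (C : ℝ) (W : ℕ → Cu K → ℝ), 1 ≤ C ∧ (∀ d c, 0 ≤ W d c ∧ W d c ≤ C) ∧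
      (∀ d c c', q.Le c c' → W d c = W d c') ∧ (∀ c, ∃ d, 0 < W d c) ∧
      ∀ (d : ℕ), ∀ χ ∈ Ch K, ∀ c : Cu K, c.F = F0 χ → ∃ Z : Finset q.X, (∀ x ∈ Z, q.xc x = c) ∧
        (Z.card : ℝ) ≤ C * H48.KV.selg c.F ∧
        ∀ Y : ℝ, 1 ≤ Y → (Fib pi Q S ds χ d Y).Finite ∧
          |((Fib pi Q S ds χ d Y).ncard : ℝ) - W d c * c.mq S Y| ≤ C + C * ∑ x ∈ Z, |q.sq x Y| ∧
          ((Fib pi Q S ds χ d Y).ncard : ℝ) ≤ C * H48.KV.selg c.F * ∑ q ∈ AS K S Y, (3 : ℝ) ^ q.card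

end H38.SQE
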