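import Pool.Agent.H38.SQE.Defs

/-!
# SQ (EN): transport of the fibre formula along an isomorphism (as H38/SE/Trp.lean)
-/

set_option autoImplicit false

open scoped NumberField Classical
open IsDedekindDomain H38.ML H63.MA H67.SX H38.SE

noncomputable section

namespace H38.SQE

variable {K : IntermediateField ℚ QBar} [NumberField K]

private theorem trp_ft {G G' : Type} [Group G] [Group G'] (f : G ≃* G') (φ : Gal(QBar/K) →* G) :
    FT (f.toMonoidHom.comp φ) ↔ FT φ := by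
  have h : (f.toMonoidHom.comp φ).ker = φ.ker := by
    ext σ
    rw [MonoidHom.mem_ker, MonoidHom.mem_ker]
    change f (φ σ) = 1 ↔ φ σ = 1
    exact map_eq_one_iff f f.injective
  unfold FT
  rw [h]

private theorem trp_sj {G G' : Type} [Group G] [Group G'] (f : G ≃* G') (φ : Gal(QBar/K) →* G) :
    Function.Surjective (f.toMonoidHom.comp φ) ↔ Function.Surjective φ := by
  constructor
  · intro h g
    obtain ⟨σ, hσ⟩ := h (f g)
    exact ⟨σ, f.injective hσ⟩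
  · intro h g
    obtain ⟨σ, hσ⟩ := h (f.symm g)
    refine ⟨σ, ?_⟩
    change f (φ σ) = g
    rw [hσ, f.apply_symm_apply]

private theorem trp_fib {G G' : Type} [Group G] [Group G'] (f : G ≃* G') (pi : G →* Equiv.Perm (Fin 3))
    (S : Finset (Pl K)) (Q : DP K QBar) (ds : (Gal(QBar/K) →* G') → ℕ)
    (χ : Gal(QBar/K) →* Equiv.Perm (Fin 3)) (d : ℕ) (Y : ℝ) (φ : Gal(QBar/K) →* G) :
    f.toMonoidHom.comp φ ∈ Fib (pi.comp f.symm.toMonoidHom) Q S ds χ d Y ↔
      φ ∈ Fib pi Q S (fun φ => ds (f.toMonoidHom.comp φ)) χ d Y := by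
  have h1 : (pi.comp f.symm.toMonoidHom).comp (f.toMonoidHom.comp φ) = pi.comp φ := by
    ext1 σ
    change pi (f.symm (f (φ σ))) = pi (φ σ)
    rw [f.symm_apply_apply]
  have h2 : qs (pi.comp f.symm.toMonoidHom) Q S (f.toMonoidHom.comp φ) = qs pi Q S φ := by
    ext l
    change (l ∉ S ∧ ∃ σ ∈ (Q.P l).inertia Gal(QBar/K), f (φ σ) ≠ 1 ∧ pi (f.symm (f (φ σ))) = 1) ↔
      (l ∉ S ∧ ∃ σ ∈ (Q.P l).inertia Gal(QBar/K), φ σ ≠ 1 ∧ pi (φ σ) = 1)
    refine and_congr_right fun _ => exists_congr fun σ => and_congr_right fun _ => ?_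
    rw [f.symm_apply_apply, Ne, Ne, map_eq_one_iff f f.injective]
  change (FT _ ∧ _ ∧ _ ∧ _ ∧ _) ↔ (FT _ ∧ _ ∧ _ ∧ _ ∧ _)
  rw [trp_ft, trp_sj, h1, h2]

private theorem trp_back {G G' : Type} [Group G] [Group G'] (f : G ≃* G') (φ : Gal(QBar/K) →* G') :
    f.toMonoidHom.comp (f.symm.toMonoidHom.comp φ) = φ := by
  ext1 σ
  change f (f.symm (φ σ)) = φ σ
  rw [f.apply_symm_apply]

private theorem trp_inj {G G' : Type} [Group G] [Group G'] (f : G ≃* G') :
    Function.Injective fun φ : Gal(QBar/K) →* G => f.toMonoidHom.comp φ := by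
  intro φ φ' h
  ext1 σ
  have h1 := DFunLike.congr_fun h σ
  exact f.injective h1

theorem trp {G G' : Type} [Group G] [Group G'] (f : G ≃* G') (pi : G →* Equiv.Perm (Fin 3))
    (q : QD K) (S : Finset (Pl K)) (Q : DP K QBar) (h : q.FFS S Q pi) :
    q.FFS S Q (pi.comp f.symm.toMonoidHom) := by
  intro ds' hds'
  have hds : H48.T3.LocInv Q S (fun φ : Gal(QBar/K) →* G => ds' (f.toMonoidHom.comp φ)) := by
    intro φ φ' h1 h2 h3 h4 h5
    refine hds' _ _ ((trp_sj f φ).2 h1) ((trp_ft f φ).2 h2) ((trp_sj f φ').2 h3) ((trp_ft f φ').2 h4) ?_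
    intro v hv
    obtain ⟨δ, hδ⟩ := h5 v hv
    refine ⟨f δ, fun σ hσ => ?_⟩
    change f (φ σ) = f δ * f (φ' σ) * (f δ)⁻¹
    rw [hδ σ hσ, map_mul, map_mul, map_inv]
  obtain ⟨⟨Df, hDf⟩, C, W, h1, h2, h3, h4, h5⟩ := h _ hds
  refine ⟨⟨Df, fun φ hφ hφs => ?_⟩, C, W, h1, h2, h3, h4, fun d χ hχ c hc => ?_⟩
  · have h6 := hDf (f.symm.toMonoidHom.comp φ)
      ((trp_ft f _).1 (by rw [trp_back]; exact hφ)) ((trp_sj f _).1 (by rw [trp_back]; exact hφs))
    rw [trp_back] at h6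
    exact h6
  · obtain ⟨Z, z1, z2, z3⟩ := h5 d χ hχ c hc
    refine ⟨Z, z1, z2, fun Y hY => ?_⟩
    have h6 : Fib (pi.comp f.symm.toMonoidHom) Q S ds' χ d Y =
        (fun φ : Gal(QBar/K) →* G => f.toMonoidHom.comp φ) ''
          Fib pi Q S (fun φ => ds' (f.toMonoidHom.comp φ)) χ d Y := by
      ext φ
      constructor
      · intro hφ
        refine ⟨f.symm.toMonoidHom.comp φ, ?_, trp_back f φ⟩
        rw [← trp_fib f pi S Q ds', trp_back]
        exact hφ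
      · rintro ⟨φ', hφ', rfl⟩
        exact (trp_fib f pi S Q ds' χ d Y φ').2 hφ'
    rw [h6, Set.ncard_image_of_injective _ (trp_inj f)]
    obtain ⟨z4, z5⟩ := z3 Y hY
    exact ⟨z4.image _, z5⟩

theorem trp6 (e : Fin 6 ≃ S2) (q : QD K) (S : Finset (Pl K)) (Q : DP K QBar) (h : q.FFS S Q pi4) :
    q.FFS S Q (p6 e) := trp (g6e e) pi4 q S Q h

end H38.SQE
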