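import Pool.Agent.H38.SQE.Ndl
import Pool.Agent.H38.SQE.Trp

/-!
# SQ (EN): Malle's conjecture for `S_4` in degree 6 over every number field from the chapters (as H38/SE/Fin.lean)
-/

set_option autoImplicit false

open scoped NumberField Classical
open IsDedekindDomain H38.ML H63.MA H67.SX H48.KV Filter Topology H38.SE

noncomputable section

namespace H38.SQE

variable {K : IntermediateField ℚ QBar} [NumberField K]

theorem sfin (q : QD K) (e : Fin 6 ≃ S2) (S : Finset (Pl K))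
    (hS : ∀ v : Pl K, (((6 : ℕ).factorial : ℕ) : 𝓞 K) ∈ v.asIdeal → v ∈ S) (Q : DP K QBar)
    (hW : WStat K) (hL : q.LFin) (ht : q.TRI) (h1 : q.LS1) (h2 : q.LS2) (Am : Cu K → ℝ)
    (h3 : LS3 K S Am) (h4 : LS4 K S Am) (h5 : q.LS5 Am) (hff : q.FFS S Q pi4) :
    ∃ C : ℝ, 0 < C ∧ ∃ k : ℝ → ℕ, (∀ B : ℝ, Spec.nK K QBar (G6 e) B = (k B : ℕ∞)) ∧
      Tendsto (fun B : ℝ => (k B : ℝ) / (B ^ (1 / (2 : ℝ)) * Real.log B)) atTop (𝓝 C) := by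
  obtain ⟨ds, hds, hrel⟩ := dis6 e S hS Q (0 : Fin 6)
  obtain ⟨⟨Df, hDf⟩, hfin, L, hL0, ⟨d₀, hd₀⟩, hlim⟩ := ndl6 q (p6 e) (p6_sj e) hW hL ht h1 h2 Am h3 h4
    h5 (trp6 e q S Q hff) (exc K) ds hds
  obtain ⟨CS, hCS⟩ : ∃ CS : ℝ → Set (Gal(QBar/K) →* G6 e), ∀ B, CS B =
    {φ : Gal(QBar/K) →* G6 e | FT φ ∧
      Function.Surjective φ ∧ (H38.ML.relDisc K (fieldOf (0 : Fin 6) φ) : ℝ) ≤ B} := ⟨_, fun _ => rfl⟩
  have hmem : ∀ B φ, φ ∈ CS B ↔ FT φ ∧ Function.Surjective φ ∧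
      (H38.ML.relDisc K (fieldOf (0 : Fin 6) φ) : ℝ) ≤ B := by
    intro B φ
    rw [hCS]
    rfl
  obtain ⟨ρ, hρ⟩ : ∃ ρ : ℕ → ℝ, ∀ d, ρ d = (d.unpair.1 : ℝ) / (d.unpair.2 : ℝ) ^ 2 :=
    ⟨_, fun _ => rfl⟩
  obtain ⟨D', hD'⟩ : ∃ D' : Finset ℕ, D' = Df.filter fun d => 0 < d.unpair.1 ∧ 0 < d.unpair.2 :=
    ⟨_, rfl⟩
  have hρ0 : ∀ d, 0 < d.unpair.1 → 0 < d.unpair.2 → 0 < ρ d := by
    intro d hd1 hd2
    have e1 : (0 : ℝ) < d.unpair.1 := by exact_mod_cast hd1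
    have e2 : (0 : ℝ) < d.unpair.2 := by exact_mod_cast hd2
    rw [hρ]
    positivity
  have hD'p : ∀ d ∈ D', 0 < ρ d := fun d hd => by
    rw [hD'] at hd
    obtain ⟨-, h6, h7⟩ := Finset.mem_filter.1 hd
    exact hρ0 d h6 h7
  have hDφ : ∀ φ, FT φ → Function.Surjective φ → ds φ ∈ D' := fun φ h6 h7 => by
    rw [hD']
    exact Finset.mem_filter.2 ⟨hDf φ h6 h7, (hrel φ h6 h7).1, (hrel φ h6 h7).2.1⟩
  have hkey : ∀ B : ℝ, 0 ≤ B → ∀ d : ℕ, 0 < ρ d → ∀ φ,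
      φ ∈ ND (p6 e) Q S ds d ((B / ρ d) ^ (1 / (2 : ℝ))) ↔ φ ∈ CS B ∧ ds φ = d := by
    intro B hB d hd φ
    have h6 : ∀ t : ℝ, 0 ≤ t → (t ≤ (B / ρ d) ^ (1 / (2 : ℝ)) ↔ ρ d * t ^ 2 ≤ B) := by
      intro t ht
      rw [← Real.sqrt_eq_rpow, Real.le_sqrt ht (div_nonneg hB hd.le), le_div_iff₀ hd, mul_comm]
    have h7 : FT φ → Function.Surjective φ → ds φ = d →
        (H38.ML.relDisc K (fieldOf (0 : Fin 6) φ) : ℝ) =
          ρ d * ((dD ((p6 e).comp φ) : ℝ) * nr (qf (p6 e) Q S φ)) ^ 2 := by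
      rintro h8 h9 rfl
      obtain ⟨e1, e2, e3⟩ := hrel φ h8 h9
      have e4 : (0 : ℝ) < ((ds φ).unpair.2 : ℝ) := by exact_mod_cast e2
      rw [hρ, div_mul_eq_mul_div, eq_div_iff (by positivity)]
      exact e3
    have h8 : (0 : ℝ) ≤ (dD ((p6 e).comp φ) : ℝ) * nr (qf (p6 e) Q S φ) :=
      mul_nonneg (Nat.cast_nonneg _) (zero_le_one.trans (one_le_nr _))
    constructor
    · rintro ⟨g1, g2, g3, g4⟩
      refine ⟨(hmem B φ).2 ⟨g1, g2, ?_⟩, g3⟩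
      rw [h7 g1 g2 g3]
      exact (h6 _ h8).1 g4
    · rintro ⟨g1, g3⟩
      obtain ⟨g1, g2, g4⟩ := (hmem B φ).1 g1
      refine ⟨g1, g2, g3, ?_⟩
      rw [h7 g1 g2 g3] at g4
      exact (h6 _ h8).2 g4
  have hfin0 : ∀ B, 0 ≤ B → (CS B).Finite := by
    intro B hB
    have h6 : (⋃ d ∈ D', ND (p6 e) Q S ds d ((B / ρ d) ^ (1 / (2 : ℝ)))).Finite :=
      Set.Finite.biUnion D'.finite_toSet fun d _ => hfin d _
    refine h6.subset fun φ hφ => ?_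
    obtain ⟨g1, g2, -⟩ := (hmem B φ).1 hφ
    have g3 := hDφ φ g1 g2
    exact Set.mem_biUnion g3 ((hkey B hB (ds φ) (hD'p _ g3) φ).2 ⟨hφ, rfl⟩)
  have hfinB : ∀ B, (CS B).Finite := by
    intro B
    refine (hfin0 (max B 0) (le_max_right _ _)).subset fun φ hφ => ?_
    rw [hmem] at hφ ⊢
    exact ⟨hφ.1, hφ.2.1, hφ.2.2.trans (le_max_left _ _)⟩
  have hsum : ∀ B : ℝ, 0 ≤ B → ((CS B).ncard : ℝ) =
      ∑ d ∈ D', ((ND (p6 e) Q S ds d ((B / ρ d) ^ (1 / (2 : ℝ)))).ncard : ℝ) := by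
    intro B hB
    rw [Set.ncard_eq_toFinset_card _ (hfinB B), Finset.card_eq_sum_card_fiberwise
      (f := ds) (t := D') fun φ hφ => by
        obtain ⟨g1, g2, -⟩ := (hmem B φ).1 ((hfinB B).mem_toFinset.1 hφ)
        exact hDφ φ g1 g2]
    push_cast
    refine Finset.sum_congr rfl fun d hd => ?_
    congr 1
    rw [← Set.ncard_coe_finset]
    congr 1
    ext φ
    rw [hkey B hB d (hD'p d hd) φ]
    simp
  have hlim1 : ∀ d, Tendsto (fun X : ℝ => ((ND (p6 e) Q S ds d X).ncard : ℝ) /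
      (X * Real.log X ^ 1)) atTop (𝓝 (L d)) := by
    intro d
    simp only [pow_one]
    exact hlim d
  have hlim2 := tendsto_finsetSum D' fun d hd => cfin_lim
    (fun X : ℝ => ((ND (p6 e) Q S ds d X).ncard : ℝ)) (L d) 1 (hlim1 d) 2 two_pos (ρ d) (hD'p d hd)
  obtain ⟨c, hc⟩ : ∃ c : ℝ, c = ∑ d ∈ D', L d * (ρ d ^ (-(1 / (2 : ℝ))) * (1 / (2 : ℝ)) ^ 1) :=
    ⟨_, rfl⟩
  rw [← hc] at hlim2
  -- positivity
  have hd₀D : d₀ ∈ D' := by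
    by_contra h6
    have h7 : ∀ X : ℝ, ND (p6 e) Q S ds d₀ X = ∅ := by
      intro X
      rw [Set.eq_empty_iff_forall_notMem]
      rintro φ ⟨g1, g2, g3, -⟩
      apply h6
      rw [← g3]
      exact hDφ φ g1 g2
    have h8 := hlim d₀
    simp only [h7, Set.ncard_empty, Nat.cast_zero, zero_div] at h8
    have h9 := tendsto_nhds_unique h8 tendsto_const_nhds
    rw [h9] at hd₀
    exact lt_irrefl _ hd₀
  have hterm : ∀ d ∈ D', 0 ≤ L d * (ρ d ^ (-(1 / (2 : ℝ))) * (1 / (2 : ℝ)) ^ 1) := by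
    intro d hd
    exact mul_nonneg (hL0 d) (mul_nonneg (Real.rpow_nonneg (hD'p d hd).le _) (by norm_num))
  have hc0 : 0 < c := by
    rw [hc]
    refine lt_of_lt_of_le ?_ (Finset.single_le_sum (f := fun d =>
      L d * (ρ d ^ (-(1 / (2 : ℝ))) * (1 / (2 : ℝ)) ^ 1)) (fun d hd => hterm d hd) hd₀D)
    exact mul_pos hd₀ (mul_pos (Real.rpow_pos_of_pos (hD'p d₀ hd₀D) _) (by norm_num))
  have hcl : Tendsto (fun B : ℝ => ((CS B).ncard : ℝ) / (B ^ (1 / (2 : ℝ)) * Real.log B)) atTop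
      (𝓝 c) := by
    refine hlim2.congr' ?_
    filter_upwards [eventually_ge_atTop (0 : ℝ)] with B hB
    rw [hsum B hB, Finset.sum_div]
    simp only [pow_one]
  obtain ⟨c₀, hc₀, hnk⟩ := H38.AS.nk2 (G6 e) (g6_tr e)
  have hkk : ∀ B : ℝ, ∃ k' : ℕ, Spec.nK K QBar (G6 e) B = (k' : ℕ∞) ∧
      k' * c₀ = (CS B).ncard := by
    intro B
    have h6 := hnk K inferInstance 0 B (by rw [← hCS]; exact hfinB B)
    rw [← hCS] at h6
    exact h6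
  choose k' hk1 hk2 using hkk
  have hc₀R : (0 : ℝ) < (c₀ : ℝ) := by exact_mod_cast hc₀
  refine ⟨c / (c₀ : ℝ), div_pos hc0 hc₀R, k', hk1, (hcl.div_const (c₀ : ℝ)).congr fun B => ?_⟩
  rw [← hk2 B]
  push_cast
  field_simp

end H38.SQE
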