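import Pool.Agent.H38.SQE.Fin
import Pool.Agent.H12.SQ.Defs

/-!
# SQ (EN): the end of the count for `S_4` in degree 6 over every number field, for the interfaces of `H12/SQ/Defs.lean`

* `lei_eqv`: `LEI S Q` is an equivalence relation.
* `lfni_of`: `LFnI` from `LFin` (finitely many values of `ni`).
* `sfinI`: the conclusion of `H38.SE.sfin` for every number field.
-/

set_option autoImplicit false

open scoped NumberField Classical
open IsDedekindDomain H38.ML H63.MA H67.SX H48.KV H38.SE H12.SQ Filter Topology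

noncomputable section

namespace H38.SQE

variable {K : IntermediateField ℚ QBar} [NumberField K]

theorem lei_eqv (S : Finset (Pl K)) (Q : DP K QBar) : Equivalence (LEI S Q) where
  refl c := ⟨fun _ _ => ⟨Equiv.refl _, fun _ _ _ => rfl⟩, fun _ => rfl⟩
  symm {c c'} h := by
    refine ⟨fun v hv => ?_, fun v => (h.2 v).symm⟩
    obtain ⟨e, he⟩ := h.1 v hv
    refine ⟨e.symm, fun σ hσ ι => ?_⟩
    rw [Equiv.symm_apply_eq, he σ hσ, Equiv.apply_symm_apply]
  trans {c c' c''} h1 h2 := by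
    refine ⟨fun v hv => ?_, fun v => (h1.2 v).trans (h2.2 v)⟩
    obtain ⟨e, he⟩ := h1.1 v hv
    obtain ⟨e', he'⟩ := h2.1 v hv
    refine ⟨e.trans e', fun σ hσ ι => ?_⟩
    rw [Equiv.trans_apply, he σ hσ, he' σ hσ, Equiv.trans_apply]

/-- the data of the hand-in -/
def qd (S : Finset (Pl K)) (Q : DP K QBar) : QD K :=
  ⟨LEI S Q, lei_eqv S Q, AQ K S, fun x => x.c, fun x Y => x.sq Y⟩

/-- the infinite places over `v` -/
theorem ni_over (c : Cu K) (v : NumberField.InfinitePlace K) :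
    {w : NumberField.InfinitePlace c.F | w.comap (algebraMap K c.F) = v} =
      NumberField.InfinitePlace.placesOver c.F v := by
  ext w
  constructor
  · intro h
    refine ⟨AbsoluteValue.ext fun x => ?_⟩
    have h1 : w.comap (algebraMap K c.F) x = v x := by rw [h]
    exact h1
  · intro h
    have h1 : w.LiesOver v := h
    exact NumberField.InfinitePlace.LiesOver.comap_eq w v

/-- `ni c v` is the number of the unramified and the ramified places, and `u + 2 r = 3` -/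
theorem ni_ur (c : Cu K) (v : NumberField.InfinitePlace K) :
    ni c v = (NumberField.InfinitePlace.unramifiedPlacesOver c.F v).ncard +
        (NumberField.InfinitePlace.ramifiedPlacesOver c.F v).ncard ∧
      (NumberField.InfinitePlace.unramifiedPlacesOver c.F v).ncard +
        2 * (NumberField.InfinitePlace.ramifiedPlacesOver c.F v).ncard = 3 := by
  refine ⟨?_, ?_⟩
  · unfold ni
    rw [ni_over, ← NumberField.InfinitePlace.union_ramifiedPlacesOver_unramifiedPlacesOver,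
      Set.ncard_union_eq
        (NumberField.InfinitePlace.disjoint_ramifiedPlacesOver_unramifiedPlacesOver c.F v),
      add_comm]
  · rw [NumberField.InfinitePlace.unramifedPlacesOver_ncard_add_eq_finrank, c.deg]

theorem ni_le (c : Cu K) (v : NumberField.InfinitePlace K) : ni c v ≤ 3 := by
  obtain ⟨h1, h2⟩ := ni_ur c v
  omega

theorem lfni_of {S : Finset (Pl K)} {Q : DP K QBar} (hL : LFin K S Q) : LFnI K S Q := by
  obtain ⟨T, hT⟩ := hL
  have hex : ∀ x : Cu K × (NumberField.InfinitePlace K → Fin 4), ∃ c : Cu K,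
      (∃ c' : Cu K, LEq S Q x.1 c' ∧ ∀ v, ni c' v = x.2 v) →
        LEq S Q x.1 c ∧ ∀ v, ni c v = x.2 v := by
    intro x
    by_cases h : ∃ c' : Cu K, LEq S Q x.1 c' ∧ ∀ v, ni c' v = x.2 v
    · obtain ⟨c', hc'⟩ := h
      exact ⟨c', fun _ => hc'⟩
    · exact ⟨x.1, fun h' => absurd h' h⟩
  choose r hr using hex
  refine ⟨(T ×ˢ (Finset.univ : Finset (NumberField.InfinitePlace K → Fin 4))).image r,
    fun c => ?_⟩
  obtain ⟨c₀, h0, h1⟩ := hT c
  obtain ⟨h2, h3⟩ := hr (c₀, fun v => ⟨ni c v, Nat.lt_succ_of_le (ni_le c v)⟩)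
    ⟨c, h1, fun _ => rfl⟩
  refine ⟨_, Finset.mem_image_of_mem r (Finset.mem_product.2 ⟨h0, Finset.mem_univ _⟩), ?_, h3⟩
  intro v hv
  obtain ⟨e, he⟩ := h2 v hv
  obtain ⟨e', he'⟩ := h1 v hv
  refine ⟨e.symm.trans e', fun σ hσ ι => ?_⟩
  rw [Equiv.trans_apply, Equiv.trans_apply, ← he' σ hσ]
  congr 1
  rw [Equiv.symm_apply_eq, he σ hσ, Equiv.apply_symm_apply]

theorem sfinI (e : Fin 6 ≃ S2) (S : Finset (Pl K))
    (hS : ∀ v : Pl K, (((6 : ℕ).factorial : ℕ) : 𝓞 K) ∈ v.asIdeal → v ∈ S) (Q : DP K QBar)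
    (hW : WStat K) (hL : LFnI K S Q) (h1 : LS1 K S) (h2 : LS2 K S) (Am : Cu K → ℝ)
    (h3 : LS3 K S Am) (h4 : LS4 K S Am) (h5 : LS5I K S Q Am) (hff : FFSI K S Q pi4) :
    ∃ C : ℝ, 0 < C ∧ ∃ k : ℝ → ℕ, (∀ B : ℝ, Spec.nK K QBar (G6 e) B = (k B : ℕ∞)) ∧
      Tendsto (fun B : ℝ => (k B : ℝ) / (B ^ (1 / (2 : ℝ)) * Real.log B)) atTop (𝓝 C) := by
  obtain ⟨C, hC, h⟩ := tri2 K
  exact sfin (qd S Q) e S hS Q hW hL ⟨C, hC, fun x Y hY => h S x Y hY⟩ h1 h2 Am h3 h4 h5 hff

end H38.SQE
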