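import Pool.Agent.H38.SQE.Defs

/-!
# SQ (EN): the mean value over the characters (as H38/SE/Mea.lean, for an abstract relation)
-/

set_option autoImplicit false

open scoped NumberField Classical
open IsDedekindDomain H38.ML H63.MA H67.SX H48.KV Filter Topology H38.SE

noncomputable section

namespace H38.SQE

variable {K : IntermediateField ℚ QBar} [NumberField K]

private theorem mea_fin (hW : WStat K) (R : ℕ) : {c : Cu K | c.D ≤ (R : ℝ)}.Finite := by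
  obtain ⟨C, _, hC⟩ := hW
  refine (hC (max 1 (R : ℝ)) (le_max_left _ _)).1.subset fun c hc => ?_
  rw [Set.mem_ofPred_eq] at hc ⊢
  exact hc.trans (le_max_right _ _)

private theorem mea_sum (q : QD K) (hW : WStat K) (Am : Cu K → ℝ)
    (cc : (Gal(QBar/K) →* Equiv.Perm (Fin 3)) → Cu K) (hcc : ∀ χ ∈ Ch K, (cc χ).F = F0 χ)
    (hfin : ∀ R : ℕ, {χ : Gal(QBar/K) →* Equiv.Perm (Fin 3) | χ ∈ Ch K ∧ dD χ ≤ R}.Finite)
    (c₀ : Cu K) (R : ℕ) :
    ∑ χ ∈ (hfin R).toFinset with q.Le c₀ (cc χ), Am (cc χ) =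
      2 * ∑ᶠ c ∈ {c : Cu K | q.Le c₀ c ∧ c.D ≤ (R : ℝ)}, Am c := by
  have hF : {c : Cu K | q.Le c₀ c ∧ c.D ≤ (R : ℝ)}.Finite :=
    (mea_fin hW R).subset fun c hc => hc.2
  have hD : ∀ χ ∈ Ch K, (cc χ).D = (dD χ : ℝ) := fun χ hχ => cdd χ (cc χ) (hcc χ hχ)
  have hmap : ∀ χ ∈ (hfin R).toFinset.filter (fun χ => q.Le c₀ (cc χ)),
      cc χ ∈ hF.toFinset := by
    intro χ hχ
    rw [Finset.mem_filter, Set.Finite.mem_toFinset] at hχ
    rw [Set.Finite.mem_toFinset]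
    refine ⟨hχ.2, ?_⟩
    rw [hD χ hχ.1.1]
    exact_mod_cast hχ.1.2
  rw [finsum_mem_eq_finite_toFinset_sum _ hF, Finset.mul_sum,
    ← Finset.sum_fiberwise_of_maps_to hmap]
  refine Finset.sum_congr rfl fun c hc => ?_
  rw [Set.Finite.mem_toFinset] at hc
  have hset : (((hfin R).toFinset.filter (fun χ => q.Le c₀ (cc χ))).filter
      (fun χ => cc χ = c)) = (two c).1.toFinset := by
    ext χ
    rw [Finset.mem_filter, Finset.mem_filter, Set.Finite.mem_toFinset, Set.Finite.mem_toFinset]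
    constructor
    · rintro ⟨⟨h1, _⟩, h3⟩
      refine ⟨h1.1, ?_⟩
      rw [← h3]
      exact hcc χ h1.1
    · rintro ⟨h1, h2⟩
      have hc' : cc χ = c := cu_ext _ _ ((hcc χ h1).trans h2.symm)
      refine ⟨⟨⟨h1, ?_⟩, ?_⟩, hc'⟩
      · have h3 : (dD χ : ℝ) ≤ (R : ℝ) := by
          rw [← hD χ h1, hc']
          exact hc.2
        exact_mod_cast h3
      · rw [hc']
        exact hc.1
  have hcard : (two c).1.toFinset.card = 2 := by
    rw [← Set.ncard_eq_toFinset_card _ (two c).1]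
    exact (two c).2
  rw [Finset.sum_congr rfl (g := fun _ => Am c) (fun χ hχ => by
    rw [(Finset.mem_filter.1 hχ).2]), Finset.sum_const, hset, hcard, nsmul_eq_mul]
  norm_num

theorem mea (q : QD K) (hW : WStat K) (hL : q.LFin) (Am : Cu K → ℝ)
    (h5 : q.LS5 Am) (W : Cu K → ℝ) (hW0 : ∀ c, 0 ≤ W c)
    (hWL : ∀ c c', q.Le c c' → W c = W c')
    (cc : (Gal(QBar/K) →* Equiv.Perm (Fin 3)) → Cu K) (hcc : ∀ χ ∈ Ch K, (cc χ).F = F0 χ)
    (hfin : ∀ R : ℕ, {χ : Gal(QBar/K) →* Equiv.Perm (Fin 3) | χ ∈ Ch K ∧ dD χ ≤ R}.Finite) :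
    ∃ a : ℝ, 0 ≤ a ∧ ((∃ c, 0 < W c) → 0 < a) ∧ Tendsto (fun R : ℕ =>
      (∑ χ ∈ (hfin R).toFinset, W (cc χ) * Am (cc χ)) / (R : ℝ)) atTop (𝓝 a) := by
  obtain ⟨T, hT⟩ := hL
  let st : Setoid (Cu K) := { r := q.Le, iseqv := q.eqv }
  have hst : ∀ c c' : Cu K, Quotient.mk st c = Quotient.mk st c' ↔ q.Le c c' :=
    fun c c' => Quotient.eq
  have key : ∀ b ∈ T.image (Quotient.mk st), ∃ a : ℝ, 0 ≤ a ∧
      ((∃ c, Quotient.mk st c = b ∧ 0 < W c) → 0 < a) ∧ Tendsto (fun R : ℕ =>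
        (∑ χ ∈ (hfin R).toFinset with Quotient.mk st (cc χ) = b, W (cc χ) * Am (cc χ)) /
          (R : ℝ)) atTop (𝓝 a) := by
    intro b hb
    obtain ⟨c₀, h0, rfl⟩ := Finset.mem_image.1 hb
    obtain ⟨a, ha, hlim⟩ := h5 c₀
    refine ⟨W c₀ * (2 * a), mul_nonneg (hW0 c₀) (by positivity), ?_, ?_⟩
    · rintro ⟨c, hc, hpos⟩
      rw [hWL c c₀ ((hst _ _).1 hc)] at hpos
      positivity
    · have hlim' := ((hlim.comp tendsto_natCast_atTop_atTop).const_mul 2).const_mul (W c₀)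
      refine hlim'.congr fun R => ?_
      have h1 : ∑ χ ∈ (hfin R).toFinset with Quotient.mk st (cc χ) = Quotient.mk st c₀,
          W (cc χ) * Am (cc χ) =
          W c₀ * ∑ χ ∈ (hfin R).toFinset with q.Le c₀ (cc χ), Am (cc χ) := by
        rw [Finset.mul_sum]
        have hs : (hfin R).toFinset.filter
            (fun χ => Quotient.mk st (cc χ) = Quotient.mk st c₀) =
            (hfin R).toFinset.filter (fun χ => q.Le c₀ (cc χ)) := by
          refine Finset.filter_congr fun χ _ => ?_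
          rw [hst]
          exact ⟨fun h => (q.eqv).symm h, fun h => (q.eqv).symm h⟩
        rw [hs]
        refine Finset.sum_congr rfl fun χ hχ => ?_
        rw [hWL c₀ (cc χ) (Finset.mem_filter.1 hχ).2]
      rw [h1, mea_sum q hW Am cc hcc hfin c₀ R]
      simp only [Function.comp_apply]
      ring
  choose! L hL0 hL1 hL2 using key
  refine ⟨∑ b ∈ T.image (Quotient.mk st), L b, Finset.sum_nonneg hL0, ?_, ?_⟩
  · rintro ⟨c, hc⟩
    obtain ⟨c₀, h0, h1⟩ := hT c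
    refine Finset.sum_pos' hL0 ⟨Quotient.mk st c₀, Finset.mem_image_of_mem _ h0, ?_⟩
    exact hL1 _ (Finset.mem_image_of_mem _ h0) ⟨c, ((hst _ _).2 h1).symm, hc⟩
  · refine (tendsto_finsetSum _ hL2).congr fun R => ?_
    rw [← Finset.sum_div]
    congr 1
    refine Finset.sum_fiberwise_of_maps_to (fun χ _ => ?_) _
    obtain ⟨c₀, h0, h1⟩ := hT (cc χ)
    rw [Finset.mem_image]
    exact ⟨c₀, h0, (hst _ _).2 h1⟩

end H38.SQE
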