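import Pool.Agent.H38.SQE.Mea

/-!
# SQ (EN): the count for one value of `ds` (as H38/SE/Ndl.lean, every number field)
-/

set_option autoImplicit false

open scoped NumberField Classical
open IsDedekindDomain H38.ML H63.MA H67.SX H48.KV Filter Topology H38.SE

noncomputable section

namespace H38.SQE

variable {K : IntermediateField ℚ QBar} [NumberField K] {G : Type} [Group G]

/-- the absolute values of the error terms -/
private def nF (q : QD K) (S : Finset (Pl K)) (Am : Cu K → ℝ) : q.X ⊕ Cu K → ℝ → ℝ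
  | Sum.inl x, Y => |q.sq x Y|
  | Sum.inr c, Y => |c.mq S Y - Am c * Y|

private theorem nF0 (q : QD K) (S : Finset (Pl K)) (Am : Cu K → ℝ) (x : q.X ⊕ Cu K) (Y : ℝ) :
    0 ≤ nF q S Am x Y := by
  cases x <;> exact abs_nonneg _

/-- the field of an index -/
private def nc (q : QD K) : q.X ⊕ Cu K → Cu K
  | Sum.inl x => q.xc x
  | Sum.inr c => c

private theorem n_exc (q : QD K) {S : Finset (Pl K)} {Am : Cu K → ℝ} (h2 : q.LS2) (h4 : LS4 K S Am)
    (B : ℕ) (ε : ℝ) (hε : 0 < ε) : ∃ R₀ : ℝ, 3 ≤ R₀ ∧ ∀ R : ℝ, R₀ ≤ R → ∀ J : Set (q.X ⊕ Cu K),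
    (∀ x ∈ J, (nc q x).D ≤ R ∧ ∃ Y : ℝ, Real.exp (Real.log (Real.log R) ^ 3) ≤ Y ∧
      Y / Real.log R ^ B < nF q S Am x Y) →
    J.Finite ∧ (J.ncard : ℝ) ≤ R ^ ε := by
  obtain ⟨R₁, h3R, hR₁⟩ := h2 1 B (ε / 2) (by linarith)
  obtain ⟨R₂, -, hR₂⟩ := h4 1 B (ε / 2) (by linarith)
  refine ⟨max (max R₁ R₂) ((2 : ℝ) ^ (2 / ε)), h3R.trans ((le_max_left _ _).trans (le_max_left _ _)),
    fun R hR J hJ => ?_⟩
  have hR1 : R₁ ≤ R := ((le_max_left _ _).trans (le_max_left _ _)).trans hR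
  have hR2 : R₂ ≤ R := ((le_max_right _ _).trans (le_max_left _ _)).trans hR
  have hR3 : (2 : ℝ) ^ (2 / ε) ≤ R := (le_max_right _ _).trans hR
  obtain ⟨f1, c1⟩ := hR₁ R hR1 {x | Sum.inl x ∈ J} (fun x hx => by
    obtain ⟨h5, h6⟩ := hJ _ hx
    exact ⟨by rw [pow_one]; exact h5, h6⟩)
  obtain ⟨f2, c2⟩ := hR₂ R hR2 {x | Sum.inr x ∈ J} (fun x hx => by
    obtain ⟨h5, h6⟩ := hJ _ hx
    exact ⟨by rw [pow_one]; exact h5, h6⟩)
  have hJe : J = Sum.inl '' {x | Sum.inl x ∈ J} ∪ Sum.inr '' {x | Sum.inr x ∈ J} := by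
    ext x
    constructor
    · intro hx
      cases x with
      | inl x => exact Or.inl ⟨x, hx, rfl⟩
      | inr x => exact Or.inr ⟨x, hx, rfl⟩
    · rintro (⟨y, hy, rfl⟩ | ⟨y, hy, rfl⟩)
      · exact hy
      · exact hy
  have hfin : J.Finite := by
    rw [hJe]
    exact (f1.image _).union (f2.image _)
  refine ⟨hfin, ?_⟩
  have hR0 : 0 < R := by linarith
  have h7 : (J.ncard : ℝ) ≤ R ^ (ε / 2) + R ^ (ε / 2) := by
    have h8 : J.ncard ≤ {x | Sum.inl x ∈ J}.ncard + {x | Sum.inr x ∈ J}.ncard := by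
      calc J.ncard = (Sum.inl '' {x | Sum.inl x ∈ J} ∪ Sum.inr '' {x | Sum.inr x ∈ J}).ncard := by
            rw [← hJe]
        _ ≤ (Sum.inl '' {x | Sum.inl x ∈ J}).ncard + (Sum.inr '' {x | Sum.inr x ∈ J}).ncard :=
            Set.ncard_union_le _ _
        _ ≤ _ := add_le_add (Set.ncard_image_le f1) (Set.ncard_image_le f2)
    have h9 : (J.ncard : ℝ) ≤ ({x | Sum.inl x ∈ J}.ncard : ℝ) + ({x | Sum.inr x ∈ J}.ncard : ℝ) := by
      exact_mod_cast h8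
    linarith
  have h10 : (2 : ℝ) ≤ R ^ (ε / 2) := by
    have h11 := Real.rpow_le_rpow (by positivity) hR3 (by linarith : 0 ≤ ε / 2)
    rw [← Real.rpow_mul (by norm_num)] at h11
    have h12 : 2 / ε * (ε / 2) = 1 := by
      field_simp
    rw [h12, Real.rpow_one] at h11
    exact h11
  have h13 : R ^ ε = R ^ (ε / 2) * R ^ (ε / 2) := by
    rw [← Real.rpow_add hR0]
    congr 1
    ring
  rw [h13]
  nlinarith

theorem selg_one (c : Cu K) : 1 ≤ selg c.F := by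
  rw [selg_fd c.F]
  have hfin := H38.AQ.sel_all K c.F
  have hone : H38.WM.Sel K c.F 1 := by
    refine ⟨?_, fun P => ?_⟩
    · rw [Units.val_one, map_one]
      exact ⟨1, (one_mul 1).symm⟩
    · rw [ord_one]
      exact ⟨0, rfl⟩
  exact Nat.card_pos_iff.2 ⟨⟨Quot.mk _ ⟨1, hone⟩⟩, hfin⟩

theorem ndl6 (q : QD K) (pi : G →* Equiv.Perm (Fin 3)) (hpi : Function.Surjective pi)
    {S : Finset (Pl K)} {Q : DP K QBar} (hW : WStat K) (hL : q.LFin) (ht : q.TRI) (h1 : q.LS1)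
    (h2 : q.LS2) (Am : Cu K → ℝ) (h3 : LS3 K S Am) (h4 : LS4 K S Am) (h5 : q.LS5 Am)
    (hff : q.FFS S Q pi) (hne : Nonempty (Cu K)) (ds : (Gal(QBar/K) →* G) → ℕ)
    (hds : H48.T3.LocInv Q S ds) :
    (∃ Df : Finset ℕ, ∀ φ : Gal(QBar/K) →* G, FT φ → Function.Surjective φ → ds φ ∈ Df) ∧
    (∀ d X, (ND pi Q S ds d X).Finite) ∧ ∃ L : ℕ → ℝ, (∀ d, 0 ≤ L d) ∧ (∃ d, 0 < L d) ∧
      ∀ d, Tendsto (fun X : ℝ => ((ND pi Q S ds d X).ncard : ℝ) / (X * Real.log X)) atTop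
        (𝓝 (L d)) := by
  obtain ⟨hDf, C₀, W, hC₀, hWb, hWL, hWp, hm⟩ := hff ds hds
  refine ⟨hDf, ?_⟩
  -- the field of a character
  have hcc' : ∀ χ : Gal(QBar/K) →* Equiv.Perm (Fin 3), ∃ c : Cu K, χ ∈ Ch K → c.F = F0 χ := by
    intro χ
    by_cases h : χ ∈ Ch K
    · obtain ⟨c, hc⟩ := chc χ h
      exact ⟨c, fun _ => hc⟩
    · exact ⟨hne.some, fun h' => absurd h' h⟩
  choose cc hcc using hcc'
  obtain ⟨C₁, hC₁, hfn⟩ := fns hW
  have hP : ∀ R : ℕ, {χ : Gal(QBar/K) →* Equiv.Perm (Fin 3) | χ ∈ Ch K ∧ dD χ ≤ R}.Finite :=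
    fun R => (hfn R).1
  obtain ⟨C₂, hC₂, ht0⟩ := tri0 K
  obtain ⟨C₃, hC₃, ht1⟩ := tri1 K
  obtain ⟨C₄, hC₄, ht2⟩ := ht
  obtain ⟨C₅, A₅, δ₅, hC₅, hδ₅0, hδ₅1, hls1⟩ := h1
  obtain ⟨C₆, A₆, δ₆, hC₆, hδ₆0, hδ₆1, hls3⟩ := h3
  -- the sets of error terms
  have hZ : ∀ (d : ℕ) (χ : Gal(QBar/K) →* Equiv.Perm (Fin 3)), ∃ Z : Finset q.X, χ ∈ Ch K →
      (∀ x ∈ Z, q.xc x = cc χ) ∧ (Z.card : ℝ) ≤ C₀ * selg (cc χ).F ∧
        ∀ Y : ℝ, 1 ≤ Y → (Fib pi Q S ds χ d Y).Finite ∧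
          |((Fib pi Q S ds χ d Y).ncard : ℝ) - W d (cc χ) * (cc χ).mq S Y| ≤
            C₀ + C₀ * ∑ x ∈ Z, |q.sq x Y| ∧
          ((Fib pi Q S ds χ d Y).ncard : ℝ) ≤
            C₀ * selg (cc χ).F * ∑ u ∈ AS K S Y, (3 : ℝ) ^ u.card := by
    intro d χ
    by_cases h : χ ∈ Ch K
    · obtain ⟨Z, hZ⟩ := hm d χ h (cc χ) (hcc χ h)
      exact ⟨Z, fun _ => hZ⟩
    · exact ⟨∅, fun h' => absurd h' h⟩
  choose Z hZ using hZ
  have hselg : ∀ χ ∈ Ch K, selg (F0 χ) = selg (cc χ).F := fun χ hχ => by rw [hcc χ hχ]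
  have hs1 : ∀ χ ∈ Ch K, (1 : ℝ) ≤ selg (F0 χ) := fun χ hχ => by
    rw [hselg χ hχ]
    exact_mod_cast selg_one (cc χ)
  have hDc : ∀ χ ∈ Ch K, ∀ c : Cu K, c = cc χ → c.D = (dD χ : ℝ) := by
    rintro χ hχ c rfl
    exact cdd χ _ (hcc χ hχ)
  have hlog : ∀ Y : ℝ, 1 ≤ Y → 0 ≤ Real.log Y := fun Y hY => Real.log_nonneg hY
  -- the mean values
  have hmea := fun d => mea q hW hL Am h5 (W d) (fun c => (hWb d c).1) (hWL d) cc hcc hP
  choose L hL0 hLp hLt using hmea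
  -- the data
  obtain ⟨C, hC⟩ : ∃ C : ℝ, C = (C₀ + 1) + C₁ + C₀ * C₂ + (C₄ + C₃ + C₆) + C₅ := ⟨_, rfl⟩
  have h02 : 0 < C₀ * C₂ := mul_pos (by linarith) (by linarith)
  have hCa : C₀ + 1 ≤ C := by rw [hC]; linarith
  have hCb : C₁ ≤ C := by rw [hC]; linarith
  have hCc : C₀ * C₂ ≤ C := by rw [hC]; linarith
  have hCd : C₄ + C₃ + C₆ ≤ C := by rw [hC]; linarith
  have hCe : C₅ ≤ C := by rw [hC]; linarith
  have hC0 : C₀ ≤ C := by linarith
  have hC00 : 0 < C := by linarith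
  have key : ∀ d : ℕ, ∃ e : EE (Gal(QBar/K) →* Equiv.Perm (Fin 3)) (q.X ⊕ Cu K),
      e.P = Ch K ∧ e.D = dD ∧ (e.N = fun χ Y => ((Fib pi Q S ds χ d Y).ncard : ℝ)) ∧ e.a = L d := by
    intro d
    refine ⟨{
      P := Ch K
      D := dD
      s := fun χ => (selg (F0 χ) : ℝ)
      N := fun χ Y => ((Fib pi Q S ds χ d Y).ncard : ℝ)
      w := fun χ => W d (cc χ) * Am (cc χ)
      Z := fun χ => (Z d χ).disjSum {cc χ}
      F := nF q S Am
      C := C
      δ := min δ₅ δ₆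
      A := max A₅ A₆
      a := L d
      C1 := by linarith
      δ0 := lt_min hδ₅0 hδ₆0
      δ1 := (min_le_left _ _).trans hδ₅1
      D1 := fun χ hχ => dD1 χ hχ
      s1 := hs1
      fin := hP
      sm := ?_
      N0 := fun _ _ => Nat.cast_nonneg _
      N1 := ?_
      w0 := fun χ => mul_nonneg (hWb d _).1 (hls3 _).1
      Zc := ?_
      Zm := ?_
      F0 := nF0 q S Am
      FT := ?_
      F1 := ?_
      F2 := ?_
      E1 := ?_
      m := hLt d }, rfl, rfl, rfl, rfl⟩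
    · intro R T hT
      refine ((hfn R).2 T hT).trans ?_
      exact mul_le_mul_of_nonneg_right hCb (Nat.cast_nonneg _)
    · intro χ hχ Y hY
      have h6 := ((hZ d χ hχ).2.2 Y hY).2.2
      have h7 := ht0 S Y hY
      have h8 : (0 : ℝ) ≤ selg (F0 χ) := Nat.cast_nonneg _
      have h9 : 0 ≤ Y * (1 + Real.log Y) ^ 2 := mul_nonneg (by linarith) (sq_nonneg _)
      rw [← hselg χ hχ] at h6
      calc ((Fib pi Q S ds χ d Y).ncard : ℝ)
          ≤ C₀ * selg (F0 χ) * ∑ u ∈ AS K S Y, (3 : ℝ) ^ u.card := h6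
        _ ≤ C₀ * selg (F0 χ) * (C₂ * Y * (1 + Real.log Y) ^ 2) :=
            mul_le_mul_of_nonneg_left h7 (mul_nonneg (by linarith) h8)
        _ = (C₀ * C₂) * (selg (F0 χ) * (Y * (1 + Real.log Y) ^ 2)) := by ring
        _ ≤ C * (selg (F0 χ) * (Y * (1 + Real.log Y) ^ 2)) :=
            mul_le_mul_of_nonneg_right hCc (mul_nonneg h8 h9)
        _ = C * selg (F0 χ) * Y * (1 + Real.log Y) ^ 2 := by ring
    · intro χ hχ
      have h6 := (hZ d χ hχ).2.1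
      have h7 := hs1 χ hχ
      rw [← hselg χ hχ] at h6
      rw [Finset.card_disjSum, Finset.card_singleton]
      push_cast
      calc ((Z d χ).card : ℝ) + 1 ≤ C₀ * selg (F0 χ) + 1 * selg (F0 χ) := by linarith
        _ = (C₀ + 1) * selg (F0 χ) := by ring
        _ ≤ C * selg (F0 χ) := mul_le_mul_of_nonneg_right hCa (by linarith)
    · intro x T hT
      have hx : ∀ χ ∈ T, χ ∈ Ch K ∧ (nc q x).F = F0 χ := by
        intro χ hχ
        obtain ⟨h6, h7⟩ := hT χ hχ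
        refine ⟨h6, ?_⟩
        cases x with
        | inl x =>
          rw [Finset.inl_mem_disjSum] at h7
          have h8 := (hZ d χ h6).1 x h7
          change (q.xc x).F = _
          rw [h8]
          exact hcc χ h6
        | inr c =>
          rw [Finset.inr_mem_disjSum, Finset.mem_singleton] at h7
          change c.F = _
          rw [h7]
          exact hcc χ h6
      exact fns3 (nc q x) T hx
    · intro χ hχ x hx Y hY
      have hD1 : (1 : ℝ) ≤ dD χ := by exact_mod_cast dD1 χ hχ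
      have hlD := hlog _ hD1
      have hlY := hlog Y hY
      have ha : (1 : ℝ) ≤ (1 + Real.log (dD χ)) ^ 3 := one_le_pow₀ (by linarith)
      have hb : (1 : ℝ) ≤ (1 + Real.log Y) ^ 2 := one_le_pow₀ (by linarith)
      have hb0 : 0 ≤ Y * (1 + Real.log Y) ^ 2 := mul_nonneg (by linarith) (sq_nonneg _)
      have hP1 : Y * (1 + Real.log Y) ^ 2 ≤ Y * (1 + Real.log Y) ^ 2 * (1 + Real.log (dD χ)) ^ 3 :=
        le_mul_of_one_le_right hb0 ha
      have hP2 : (1 + Real.log (dD χ)) ^ 3 * Y ≤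
          Y * (1 + Real.log Y) ^ 2 * (1 + Real.log (dD χ)) ^ 3 := by
        have h6 : Y ≤ Y * (1 + Real.log Y) ^ 2 := le_mul_of_one_le_right (by linarith) hb
        calc (1 + Real.log (dD χ)) ^ 3 * Y
            ≤ (1 + Real.log (dD χ)) ^ 3 * (Y * (1 + Real.log Y) ^ 2) :=
              mul_le_mul_of_nonneg_left h6 (by linarith)
          _ = _ := by ring
      have hP0 : 0 ≤ Y * (1 + Real.log Y) ^ 2 * (1 + Real.log (dD χ)) ^ 3 :=
        mul_nonneg hb0 (by linarith)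
      cases x with
      | inl x =>
        have h6 := ht2 x Y hY
        change |q.sq x Y| ≤ _
        calc |q.sq x Y| ≤ C₄ * (Y * (1 + Real.log Y) ^ 2) := by linarith
          _ ≤ C₄ * (Y * (1 + Real.log Y) ^ 2 * (1 + Real.log (dD χ)) ^ 3) :=
              mul_le_mul_of_nonneg_left hP1 (by linarith)
          _ ≤ C * (Y * (1 + Real.log Y) ^ 2 * (1 + Real.log (dD χ)) ^ 3) :=
              mul_le_mul_of_nonneg_right (by linarith) hP0
          _ = _ := by ring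
      | inr c =>
        rw [Finset.inr_mem_disjSum, Finset.mem_singleton] at hx
        obtain ⟨h6, h7⟩ := ht1 S c Y hY
        obtain ⟨h8, h9, -⟩ := hls3 c
        rw [hDc χ hχ c hx] at h9
        change |c.mq S Y - Am c * Y| ≤ _
        have h10 : |c.mq S Y - Am c * Y| ≤ c.mq S Y + Am c * Y := by
          have h11 : 0 ≤ Am c * Y := mul_nonneg h8 (by linarith)
          rw [abs_le]
          constructor <;> linarith
        have h12 : Am c * Y ≤ C₆ * (1 + Real.log (dD χ)) ^ 3 * Y :=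
          mul_le_mul_of_nonneg_right h9 (by linarith)
        calc |c.mq S Y - Am c * Y| ≤ C₃ * (Y * (1 + Real.log Y) ^ 2) +
              C₆ * ((1 + Real.log (dD χ)) ^ 3 * Y) := by linarith
          _ ≤ C₃ * (Y * (1 + Real.log Y) ^ 2 * (1 + Real.log (dD χ)) ^ 3) +
              C₆ * (Y * (1 + Real.log Y) ^ 2 * (1 + Real.log (dD χ)) ^ 3) :=
              add_le_add (mul_le_mul_of_nonneg_left hP1 (by linarith))
                (mul_le_mul_of_nonneg_left hP2 (by linarith))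
          _ = (C₃ + C₆) * (Y * (1 + Real.log Y) ^ 2 * (1 + Real.log (dD χ)) ^ 3) := by ring
          _ ≤ C * (Y * (1 + Real.log Y) ^ 2 * (1 + Real.log (dD χ)) ^ 3) :=
              mul_le_mul_of_nonneg_right (by linarith) hP0
          _ = _ := by ring
    · intro χ hχ x hx Y hY
      have hD1 : (1 : ℝ) ≤ dD χ := by exact_mod_cast dD1 χ hχ
      have hgen : ∀ (C' : ℝ) (A' : ℕ) (δ' : ℝ), 0 ≤ C' → C' ≤ C → A' ≤ max A₅ A₆ → min δ₅ δ₆ ≤ δ' →
          C' * (dD χ : ℝ) ^ A' * Y ^ (1 - δ') ≤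
            C * (dD χ : ℝ) ^ (max A₅ A₆) * Y ^ (1 - min δ₅ δ₆) := by
        intro C' A' δ' hC'0 hC' hA' hδ'
        have h6 : (dD χ : ℝ) ^ A' ≤ (dD χ : ℝ) ^ (max A₅ A₆) := pow_le_pow_right₀ hD1 hA'
        have h7 : Y ^ (1 - δ') ≤ Y ^ (1 - min δ₅ δ₆) :=
          Real.rpow_le_rpow_of_exponent_le hY (by linarith)
        have h8 : (0 : ℝ) ≤ (dD χ : ℝ) ^ A' := by positivity
        refine mul_le_mul (mul_le_mul hC' h6 h8 hC00.le) h7 (Real.rpow_nonneg (by linarith) _) ?_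
        positivity
      cases x with
      | inl x =>
        rw [Finset.inl_mem_disjSum] at hx
        have h6 := hls1 x Y hY
        rw [hDc χ hχ (q.xc x) ((hZ d χ hχ).1 x hx)] at h6
        exact h6.trans (hgen _ _ _ (by linarith) hCe (le_max_left _ _) (min_le_left _ _))
      | inr c =>
        rw [Finset.inr_mem_disjSum, Finset.mem_singleton] at hx
        have h6 := (hls3 c).2.2 Y hY
        rw [hDc χ hχ c hx] at h6
        exact h6.trans (hgen _ _ _ (by linarith) (by linarith) (le_max_right _ _) (min_le_right _ _))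
    · intro B ε hε
      obtain ⟨R₀, hR₀, h6⟩ := n_exc q h2 h4 B ε hε
      refine ⟨R₀, hR₀, fun R hR J hJ => h6 R hR J fun x hx => ?_⟩
      obtain ⟨⟨χ, hχ, hxZ, hD⟩, hY⟩ := hJ x hx
      refine ⟨?_, hY⟩
      cases x with
      | inl x =>
        rw [Finset.inl_mem_disjSum] at hxZ
        change (q.xc x).D ≤ R
        rw [hDc χ hχ (q.xc x) ((hZ d χ hχ).1 x hxZ)]
        exact hD
      | inr c =>
        rw [Finset.inr_mem_disjSum, Finset.mem_singleton] at hxZ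
        change c.D ≤ R
        rw [hDc χ hχ c hxZ]
        exact hD
    · intro χ hχ Y hY
      have h6 := ((hZ d χ hχ).2.2 Y hY).2.1
      obtain ⟨h7, h8⟩ := hWb d (cc χ)
      rw [Finset.sum_disjSum, Finset.sum_singleton]
      change |((Fib pi Q S ds χ d Y).ncard : ℝ) - W d (cc χ) * Am (cc χ) * Y| ≤
        C + C * (∑ x ∈ Z d χ, |q.sq x Y| + |(cc χ).mq S Y - Am (cc χ) * Y|)
      have h9 : ((Fib pi Q S ds χ d Y).ncard : ℝ) - W d (cc χ) * Am (cc χ) * Y =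
          (((Fib pi Q S ds χ d Y).ncard : ℝ) - W d (cc χ) * (cc χ).mq S Y) +
            W d (cc χ) * ((cc χ).mq S Y - Am (cc χ) * Y) := by ring
      have h10 : |W d (cc χ) * ((cc χ).mq S Y - Am (cc χ) * Y)| ≤
          C₀ * |(cc χ).mq S Y - Am (cc χ) * Y| := by
        rw [abs_mul, abs_of_nonneg h7]
        exact mul_le_mul_of_nonneg_right h8 (abs_nonneg _)
      have h11 : 0 ≤ ∑ x ∈ Z d χ, |q.sq x Y| := Finset.sum_nonneg fun _ _ => abs_nonneg _
      have h12 : 0 ≤ |(cc χ).mq S Y - Am (cc χ) * Y| := abs_nonneg _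
      rw [h9]
      refine (abs_add_le _ _).trans ?_
      calc _ ≤ (C₀ + C₀ * ∑ x ∈ Z d χ, |q.sq x Y|) + C₀ * |(cc χ).mq S Y - Am (cc χ) * Y| :=
            add_le_add h6 h10
        _ = C₀ + C₀ * (∑ x ∈ Z d χ, |q.sq x Y| + |(cc χ).mq S Y - Am (cc χ) * Y|) := by ring
        _ ≤ _ := add_le_add hC0 (mul_le_mul_of_nonneg_right hC0 (by linarith))
  have hfinF : ∀ d, ∀ χ ∈ Ch K, ∀ Y : ℝ, 1 ≤ Y → (Fib pi Q S ds χ d Y).Finite :=
    fun d χ hχ Y hY => ((hZ d χ hχ).2.2 Y hY).1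
  have hnd := fun d => nds6 pi hpi Q S ds d (hfinF d) hP
  refine ⟨fun d X => (hnd d X).1, L, hL0, ?_, fun d => ?_⟩
  · obtain ⟨c⟩ := hne
    obtain ⟨d, hd⟩ := hWp c
    exact ⟨d, hLp d ⟨c, hd⟩⟩
  · obtain ⟨e, heP, heD, heN, hea⟩ := key d
    have h6 := elim e
    rw [hea] at h6
    refine h6.congr fun X => ?_
    congr 1
    have h7 : (e.fin ⌊X⌋₊).toFinset = (hP ⌊X⌋₊).toFinset := by
      ext χ
      rw [Set.Finite.mem_toFinset, Set.Finite.mem_toFinset]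
      change χ ∈ e.P ∧ e.D χ ≤ ⌊X⌋₊ ↔ χ ∈ Ch K ∧ dD χ ≤ ⌊X⌋₊
      rw [heP, heD]
    rw [(hnd d X).2, Nat.cast_sum, h7]
    refine Finset.sum_congr rfl fun χ _ => ?_
    rw [heN, heD]

end H38.SQE
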